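import Pool.Agent.helper66.FB.Spec
import Pool.Agent.helper81.HP.B5

/-! # MP_5ae64c_pr, module fb:LC: level counts (helper14) -/

set_option autoImplicit false

open scoped BigOperators Topology
open Filter MeasureTheory

namespace Pool.Agent.helper66.FB

open Finset
open Pool.Agent.helper20.HP

section

variable {V : Type} [DecidableEq V]

theorem h14_LC_point (x : V) (ρ : List V) (hnd : (x :: ρ).Nodup) (a : ℕ) (l : List V) :
    ind (((run (x :: ρ) l).toFinset ∩ (x :: l).toFinset).card < a)
      ≤ ∑ u ∈ range (l.length + 1), ind (lst x (l.take u) ∈ x :: ρ) *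
          ind (lel (lst x (l.take u)) (l.drop u) < a) := by
  have hnn : ∀ u ∈ range (l.length + 1), 0 ≤ ind (lst x (l.take u) ∈ x :: ρ) *
      ind (lel (lst x (l.take u)) (l.drop u) < a) :=
    fun u _ => mul_nonneg (ind_nonneg _) (ind_nonneg _)
  by_cases hc : ((run (x :: ρ) l).toFinset ∩ (x :: l).toFinset).card < a
  · obtain ⟨l1, l2, z, σ, hl, hrun1, hz, hsuf, hav, hrun⟩ := split_min x ρ l hnd
    have hzm : z ∈ x :: l1 := hz ▸ lst_mem x l1
    have hsub : (run [z] l2).toFinset ⊆ (run (x :: ρ) l).toFinset ∩ (x :: l).toFinset := by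
      intro w hw
      rw [List.mem_toFinset] at hw
      rw [Finset.mem_inter, List.mem_toFinset, List.mem_toFinset]
      constructor
      · rw [hrun]
        exact List.mem_append_left _ hw
      · rw [hl, ← List.cons_append]
        rcases mem_run hw with h | h
        · rw [List.mem_singleton] at h
          rw [h]
          exact List.mem_append_left _ hzm
        · exact List.mem_append_right _ h
    have hcard : (run [z] l2).toFinset.card = lel z l2 + 1 := by
      rw [List.toFinset_card_of_nodup (run_nodup (by simp) l2), run_single_length]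
    have hlt : lel z l2 < a := by
      have := Finset.card_le_card hsub
      omega
    have ht : l.take l1.length = l1 := by rw [hl]; simp
    have hd : l.drop l1.length = l2 := by rw [hl]; simp
    have hmem : z ∈ x :: ρ := hsuf.subset (by simp)
    have hterm : ind (lst x (l.take l1.length) ∈ x :: ρ) *
        ind (lel (lst x (l.take l1.length)) (l.drop l1.length) < a) = 1 := by
      rw [ht, hd, hz, ind_true hmem, ind_true hlt, one_mul]
    rw [ind_true hc, ← hterm]
    refine Finset.single_le_sum (f := fun u => ind (lst x (l.take u) ∈ x :: ρ) *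
      ind (lel (lst x (l.take u)) (l.drop u) < a)) hnn ?_
    rw [Finset.mem_range, hl, List.length_append]
    omega
  · rw [ind_false hc]
    exact Finset.sum_nonneg hnn

/-- the indicator of `n < a` -/
theorem h14_ind_lt (n a : ℕ) : ind (n < a) = ∑ q ∈ range a, ind (n = q) := by
  by_cases h : n < a
  · rw [ind_true h, Finset.sum_eq_single n, ind_true rfl]
    · intro b _ hb
      exact ind_false (Ne.symm hb)
    · intro hn
      exact absurd (Finset.mem_range.2 h) hn
  · rw [ind_false h]
    refine (Finset.sum_eq_zero fun q hq => ind_false ?_).symm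
    have := Finset.mem_range.1 hq
    omega

end

theorem LC : LC_stmt := by
  intro V _ _ K θ h hP x ρ hnd a m hm
  rcases Nat.eq_zero_or_pos m with rfl | hm0
  · simp
  obtain ⟨T, rfl⟩ : ∃ T, m = T + 1 := ⟨m - 1, by omega⟩
  have hTs : T ≤ Nat.sqrt (Fintype.card V) := by omega
  set g : ℕ → ℕ → ℝ := fun u v =>
    W K u x (fun l1 => ind (lst x l1 ∈ x :: ρ) *
      W K v (lst x l1) (fun l2 => ind (lel (lst x l1) l2 < a))) with hg
  have hg0 : ∀ u v, 0 ≤ g u v := fun u v =>
    W_nonneg K u x fun l1 _ => mul_nonneg (ind_nonneg _) (W_nonneg K v _ fun l2 _ => ind_nonneg _)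
  have hterm : ∀ u v : ℕ, W K (u + v) x (fun l => ind (lst x (l.take u) ∈ x :: ρ) *
      ind (lel (lst x (l.take u)) (l.drop u) < a)) = g u v := by
    intro u v
    rw [W_split]
    refine W_congr K u x fun l1 hl1 => ?_
    rw [← W_mul_left]
    refine W_congr K v _ fun l2 _ => ?_
    have h1 : (l1 ++ l2).take u = l1 := by rw [← hl1]; simp
    have h2 : (l1 ++ l2).drop u = l2 := by rw [← hl1]; simp
    rw [h1, h2]
  have step1 : ∑ j ∈ range (T + 1), W K j x (fun l =>
        ind (((run (x :: ρ) l).toFinset ∩ (x :: l).toFinset).card < a))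
      ≤ ∑ t ∈ range (T + 1), ∑ u ∈ range (t + 1), g u (t - u) := by
    refine Finset.sum_le_sum fun t _ => ?_
    calc W K t x (fun l => ind (((run (x :: ρ) l).toFinset ∩ (x :: l).toFinset).card < a))
        ≤ W K t x (fun l => ∑ u ∈ range (t + 1), ind (lst x (l.take u) ∈ x :: ρ) *
            ind (lel (lst x (l.take u)) (l.drop u) < a)) := by
          refine W_mono K t x fun l hl => ?_
          have := h14_LC_point x ρ hnd a l
          rwa [hl] at this
      _ = ∑ u ∈ range (t + 1), W K t x (fun l => ind (lst x (l.take u) ∈ x :: ρ) *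
            ind (lel (lst x (l.take u)) (l.drop u) < a)) := W_sum K _ t x _
      _ = ∑ u ∈ range (t + 1), g u (t - u) := by
          refine Finset.sum_congr rfl fun u hu => ?_
          have hu' : u ≤ t := by simpa [Nat.lt_succ_iff] using Finset.mem_range.1 hu
          have := hterm u (t - u)
          rw [Nat.add_sub_cancel' hu'] at this
          exact this
  refine step1.trans ((B5_tri g hg0 T).trans ?_)
  rw [Finset.mul_sum]
  refine Finset.sum_le_sum fun u _ => ?_
  rw [hg]
  dsimp only
  rw [← W_sum, ← W_mul_left]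
  refine W_mono K u x fun l1 _ => ?_
  rw [← Finset.mul_sum]
  have hz : ∑ v ∈ range (T + 1), W K v (lst x l1) (fun l2 => ind (lel (lst x l1) l2 < a))
      ≤ CZ θ * a := by
    calc ∑ v ∈ range (T + 1), W K v (lst x l1) (fun l2 => ind (lel (lst x l1) l2 < a))
        = ∑ v ∈ range (T + 1), ∑ q ∈ range a,
            W K v (lst x l1) (fun l2 => ind (lel (lst x l1) l2 = q)) := by
          refine Finset.sum_congr rfl fun v _ => ?_
          rw [← W_sum]
          exact W_congr K v _ fun l2 _ => h14_ind_lt _ _
      _ = ∑ q ∈ range a, Zq K T q (lst x l1) := by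
          rw [Finset.sum_comm]
          rfl
      _ ≤ ∑ q ∈ range a, CZ θ := Finset.sum_le_sum fun q _ => Zq_le hP T q _ hTs
      _ = CZ θ * a := by
          rw [Finset.sum_const, Finset.card_range, nsmul_eq_mul, mul_comm]
  rw [mul_comm (CZ θ * (a : ℝ))]
  exact mul_le_mul_of_nonneg_left hz (ind_nonneg _)

end Pool.Agent.helper66.FB
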